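import Mathlib
import Pool.Agent.X27.HN.Fox

set_option autoImplicit false

/-!
# The Hanna Neumann-type inequality over free group algebras fails

Let `F` be the free group on `x`, `y`, let `H` be the subgroup generated by `x`, `y x y⁻¹`, `y²` (free
of rank `3`), let `d = 3` and let `M` be generated by `(1 - x, 1 - y², 0)`, `(0, 0, 1 - x)`,
`(0, 0, 1 - y)`.  Then `M` is algebraic of rank `3`, and `M ∩ K[H]³` has rank `4`.
-/

namespace Pool.Agent.Results.MP_6883a6_al.NotHannaNeumann

open MonoidAlgebra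
open Pool.Agent.X27.HN (gg gg_mul gg_one right_indep left_indep aug aug_single aug_gg aug_span
  mul_one_sub_cancel)

universe u v

/-- A submodule `M` of the free right module `A^d` is algebraic: no proper free direct summand of
`A^d` contains `M`. -/
def IsAlgebraicSub {A : Type u} [Ring A] {d : ℕ} (M : Submodule Aᵐᵒᵖ (Fin d → A)) : Prop :=
  ∀ P Q : Submodule Aᵐᵒᵖ (Fin d → A), Module.Free Aᵐᵒᵖ P → IsCompl P Q → M ≤ P → P = ⊤

/-- For a subgroup `H` of `G` and a right submodule `M` of `K[G]^d`, the intersection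
`M ∩ K[H]^d` as a right submodule of `K[H]^d`. -/
noncomputable def interSub (K : Type u) [Field K] {G : Type v} [Group G] (H : Subgroup G) {d : ℕ}
    (M : Submodule (MonoidAlgebra K G)ᵐᵒᵖ (Fin d → MonoidAlgebra K G)) :
    Submodule (MonoidAlgebra K H)ᵐᵒᵖ (Fin d → MonoidAlgebra K H) where
  carrier := {v | (fun i => mapDomainRingHom K H.subtype (v i)) ∈ M}
  add_mem' := fun {v w} hv hw => by
    have h := M.add_mem hv hw
    have e : (fun i => mapDomainRingHom K H.subtype ((v + w) i)) =
        (fun i => mapDomainRingHom K H.subtype (v i)) +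
          (fun i => mapDomainRingHom K H.subtype (w i)) := by
      funext i
      simp only [Pi.add_apply, map_add]
    change (fun i => mapDomainRingHom K H.subtype ((v + w) i)) ∈ M
    rw [e]
    exact h
  zero_mem' := by
    have e : (fun i => mapDomainRingHom K H.subtype ((0 : Fin d → MonoidAlgebra K H) i)) = 0 := by
      funext i
      simp only [Pi.zero_apply, map_zero]
    change (fun i => mapDomainRingHom K H.subtype ((0 : Fin d → MonoidAlgebra K H) i)) ∈ M
    rw [e]
    exact M.zero_mem
  smul_mem' := fun c v hv => by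
    have h := M.smul_mem (MulOpposite.op (mapDomainRingHom K H.subtype c.unop)) hv
    have e : (fun i => mapDomainRingHom K H.subtype ((c • v) i)) =
        MulOpposite.op (mapDomainRingHom K H.subtype c.unop) •
          (fun i => mapDomainRingHom K H.subtype (v i)) := by
      funext i
      have e1 : (c • v) i = v i * c.unop := rfl
      rw [e1, map_mul]
      rfl
    change (fun i => mapDomainRingHom K H.subtype ((c • v) i)) ∈ M
    rw [e]
    exact h

/-- The inequality of the problem: for every field `K`, every free group `F`, every `d ≥ 1`, every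
non-trivial finitely generated subgroup `H` (free of rank `r`) and every finitely generated
algebraic right submodule `M` of `K[F]^d` (of rank `m`, with `M ∩ K[H]^d` of rank `s`),
`s / d - 1 ≤ (m / d - 1) (r - 1)`. -/
def HannaNeumannInequality : Prop :=
  ∀ (K : Type) [Field K] (α : Type) (d : ℕ), 1 ≤ d → ∀ (H : Subgroup (FreeGroup α)), H ≠ ⊥ →
    ∀ (M : Submodule (MonoidAlgebra K (FreeGroup α))ᵐᵒᵖ (Fin d → MonoidAlgebra K (FreeGroup α))),
    IsAlgebraicSub M → ∀ r m s : ℕ, Nonempty (FreeGroupBasis (Fin r) H) →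
    Nonempty (Module.Basis (Fin m) (MonoidAlgebra K (FreeGroup α))ᵐᵒᵖ M) →
    Nonempty (Module.Basis (Fin s) (MonoidAlgebra K H)ᵐᵒᵖ (interSub K H M)) →
    (s : ℝ) / d - 1 ≤ ((m : ℝ) / d - 1) * ((r : ℝ) - 1)

/-! ### A criterion for bases -/

lemma mkBasis {A : Type u} [Ring A] {d r : ℕ} (N : Submodule Aᵐᵒᵖ (Fin d → A))
    (e : Fin r → Fin d → A) (he : ∀ i, e i ∈ N)
    (hli : ∀ a : Fin r → A, (∀ j, ∑ i, e i j * a i = 0) → ∀ i, a i = 0)
    (hsp : ∀ v ∈ N, ∃ a : Fin r → A, ∀ j, v j = ∑ i, e i j * a i) :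
    Nonempty (Module.Basis (Fin r) Aᵐᵒᵖ N) := by
  have h1 : LinearIndependent Aᵐᵒᵖ (fun i => (⟨e i, he i⟩ : N)) := by
    rw [Fintype.linearIndependent_iff]
    intro g hg i
    have h2 := hli (fun i => (g i).unop) (fun j => by
      have h3 := congrArg (fun v : N => (v : Fin d → A) j) hg
      simp only [Submodule.coe_sum, Submodule.coe_smul, Finset.sum_apply, Submodule.coe_zero,
        Pi.zero_apply] at h3
      rw [← h3]
      rfl) i
    exact MulOpposite.unop_injective h2
  have h2 : ⊤ ≤ Submodule.span Aᵐᵒᵖ (Set.range fun i => (⟨e i, he i⟩ : N)) := by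
    rintro ⟨v, hv⟩ -
    obtain ⟨a, ha⟩ := hsp v hv
    have e1 : (⟨v, hv⟩ : N) = ∑ i, MulOpposite.op (a i) • (⟨e i, he i⟩ : N) := by
      apply Subtype.ext
      funext j
      simp only [Submodule.coe_sum, Submodule.coe_smul, Finset.sum_apply]
      rw [ha j]
      rfl
    rw [e1]
    exact Submodule.sum_mem _ fun i _ => Submodule.smul_mem _ _
      (Submodule.subset_span (Set.mem_range_self i))
  exact ⟨Module.Basis.mk h1 h2⟩

/-! ### The subgroup -/

/-- the free group on `x`, `y` -/
abbrev F := FreeGroup (Fin 2)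

/-- the free group of rank `3` -/
abbrev F3 := FreeGroup (Fin 3)

def x : F := FreeGroup.of 0
def y : F := FreeGroup.of 1

/-- the homomorphism onto the subgroup generated by `x`, `y x y⁻¹`, `y²` -/
noncomputable def phi : F3 →* F := FreeGroup.lift ![x, y * x * y⁻¹, y * y]

/-- the action of `x` on two copies of `F3` -/
def px : Equiv.Perm (F3 × Bool) where
  toFun s := match s with
    | (g, false) => (FreeGroup.of 0 * g, false)
    | (g, true) => (FreeGroup.of 1 * g, true)
  invFun s := match s with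
    | (g, false) => ((FreeGroup.of 0)⁻¹ * g, false)
    | (g, true) => ((FreeGroup.of 1)⁻¹ * g, true)
  left_inv s := by rcases s with ⟨g, _ | _⟩ <;> simp
  right_inv s := by rcases s with ⟨g, _ | _⟩ <;> simp

/-- the action of `y` on two copies of `F3` -/
def py : Equiv.Perm (F3 × Bool) where
  toFun s := match s with
    | (g, false) => (FreeGroup.of 2 * g, true)
    | (g, true) => (g, false)
  invFun s := match s with
    | (g, false) => (g, true)
    | (g, true) => ((FreeGroup.of 2)⁻¹ * g, false)
  left_inv s := by rcases s with ⟨g, _ | _⟩ <;> simp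
  right_inv s := by rcases s with ⟨g, _ | _⟩ <;> simp

noncomputable def rho : F →* Equiv.Perm (F3 × Bool) := FreeGroup.lift ![px, py]

lemma rho_x : rho x = px := by
  unfold rho x
  simp

lemma rho_y : rho y = py := by
  unfold rho y
  simp

lemma rho_phi_of (i : Fin 3) (g : F3) :
    rho (phi (FreeGroup.of i)) (g, false) = (FreeGroup.of i * g, false) := by
  fin_cases i
  · have e : phi (FreeGroup.of (0 : Fin 3)) = x := by unfold phi; simp
    change rho (phi (FreeGroup.of (0 : Fin 3))) (g, false) = (FreeGroup.of (0 : Fin 3) * g, false)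
    rw [e, rho_x]
    rfl
  · have e : phi (FreeGroup.of (1 : Fin 3)) = y * x * y⁻¹ := by unfold phi; simp
    change rho (phi (FreeGroup.of (1 : Fin 3))) (g, false) = (FreeGroup.of (1 : Fin 3) * g, false)
    rw [e, map_mul, map_mul, map_inv, rho_x, rho_y]
    rfl
  · have e : phi (FreeGroup.of (2 : Fin 3)) = y * y := by unfold phi; simp
    change rho (phi (FreeGroup.of (2 : Fin 3))) (g, false) = (FreeGroup.of (2 : Fin 3) * g, false)
    rw [e, map_mul, rho_y]
    rfl

lemma rho_phi (w : F3) : ∀ g : F3, rho (phi w) (g, false) = (w * g, false) := by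
  induction w using FreeGroup.induction_on with
  | C1 => intro g; simp
  | of i => exact rho_phi_of i
  | inv_of i hi =>
    intro g
    rw [map_inv, map_inv, Equiv.Perm.inv_eq_iff_eq, hi]
    simp
  | mul a b ha hb =>
    intro g
    rw [map_mul, map_mul, Equiv.Perm.mul_apply, hb, ha, mul_assoc]

lemma phi_injective : Function.Injective phi := by
  intro a b hab
  have h1 := rho_phi a 1
  rw [hab, rho_phi b 1] at h1
  simpa using (congrArg Prod.fst h1).symm

/-- the subgroup generated by `x`, `y x y⁻¹`, `y²` -/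
noncomputable def H : Subgroup F := phi.range

/-- its free basis -/
noncomputable def bH : FreeGroupBasis (Fin 3) H :=
  (FreeGroupBasis.ofFreeGroup (Fin 3)).map (MonoidHom.ofInjective phi_injective)

lemma bH_val (i : Fin 3) : (bH i : F) = phi (FreeGroup.of i) := rfl

lemma bH_zero : (bH 0 : F) = x := by rw [bH_val]; unfold phi; simp

lemma bH_two : (bH 2 : F) = y * y := by rw [bH_val]; unfold phi; simp

/-- the basis of `F` -/
noncomputable def bF : FreeGroupBasis (Fin 2) F := FreeGroupBasis.ofFreeGroup (Fin 2)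

lemma bF_zero : bF 0 = x := by unfold bF x; simp

lemma bF_one : bF 1 = y := by unfold bF y; simp

lemma y_torsion (n : ℕ) : (y * y) ^ (n + 1) ≠ 1 := by
  intro h
  let e : F →* Multiplicative ℤ := FreeGroup.lift (fun _ : Fin 2 => Multiplicative.ofAdd (1 : ℤ))
  have hey : e y = Multiplicative.ofAdd (1 : ℤ) := by
    simp only [e, y, FreeGroup.lift_apply_of]
  have h1 : e ((y * y) ^ (n + 1)) = 1 := by rw [h, MonoidHom.map_one]
  rw [MonoidHom.map_pow, MonoidHom.map_mul, hey] at h1
  have h2 : Multiplicative.toAdd ((Multiplicative.ofAdd (1 : ℤ) * Multiplicative.ofAdd (1 : ℤ)) ^ (n + 1)) =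
      Multiplicative.toAdd (1 : Multiplicative ℤ) := congrArg Multiplicative.toAdd h1
  rw [toAdd_pow, toAdd_mul, toAdd_one, toAdd_ofAdd] at h2
  simp at h2
  omega

/-! ### The module -/

variable (K : Type u) [Field K]

/-- the submodule `M` of `K[F]^3` -/
noncomputable def M : Submodule (MonoidAlgebra K F)ᵐᵒᵖ (Fin 3 → MonoidAlgebra K F) where
  carrier := {v | (∃ a, v 0 = (1 - gg K x) * a ∧ v 1 = (1 - gg K (y * y)) * a) ∧
    aug K F (v 2) = 0}
  add_mem' := by
    rintro v w ⟨⟨a, h1, h2⟩, h3⟩ ⟨⟨a', h1', h2'⟩, h3'⟩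
    refine ⟨⟨a + a', ?_, ?_⟩, ?_⟩
    · rw [Pi.add_apply, h1, h1', mul_add]
    · rw [Pi.add_apply, h2, h2', mul_add]
    · rw [Pi.add_apply, map_add, h3, h3', add_zero]
  zero_mem' := ⟨⟨0, by simp, by simp⟩, by simp⟩
  smul_mem' := by
    rintro c v ⟨⟨a, h1, h2⟩, h3⟩
    refine ⟨⟨a * c.unop, ?_, ?_⟩, ?_⟩
    · change v 0 * c.unop = _
      rw [h1, mul_assoc]
    · change v 1 * c.unop = _
      rw [h2, mul_assoc]
    · change aug K F (v 2 * c.unop) = 0
      rw [map_mul, h3, zero_mul]

lemma mem_M {v : Fin 3 → MonoidAlgebra K F} : v ∈ M K ↔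
    (∃ a, v 0 = (1 - gg K x) * a ∧ v 1 = (1 - gg K (y * y)) * a) ∧ aug K F (v 2) = 0 := Iff.rfl

lemma x_cancel {a : MonoidAlgebra K F} (h : (1 - gg K x) * a = 0) : a = 0 := by
  have := right_indep (K := K) bF ![a, 0] (by
    rw [Fin.sum_univ_two, bF_zero, bF_one]
    simpa using h) 0
  simpa using this

lemma basis_M : Nonempty (Module.Basis (Fin 3) (MonoidAlgebra K F)ᵐᵒᵖ (M K)) := by
  refine mkBasis (M K) ![![1 - gg K x, 1 - gg K (y * y), 0], ![0, 0, 1 - gg K x],
    ![0, 0, 1 - gg K y]] ?_ ?_ ?_
  · intro i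
    fin_cases i
    · exact ⟨⟨1, by simp, by simp⟩, by simp⟩
    · exact ⟨⟨0, by simp, by simp⟩, by simp [aug_gg]⟩
    · exact ⟨⟨0, by simp, by simp⟩, by simp [aug_gg]⟩
  · intro a ha
    have h0 := ha 0
    have h2 := ha 2
    rw [Fin.sum_univ_three] at h0 h2
    simp at h0 h2
    have k0 : a 0 = 0 := x_cancel K h0
    have k1 := right_indep (K := K) bF ![a 1, a 2] (by
      rw [Fin.sum_univ_two, bF_zero, bF_one]
      simpa using h2)
    intro i
    fin_cases i
    · exact k0
    · simpa using k1 0
    · simpa using k1 1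
  · intro v hv
    rw [mem_M] at hv
    obtain ⟨⟨a, h0, h1⟩, h2⟩ := hv
    obtain ⟨c, hc⟩ := aug_span bF (v 2) h2
    refine ⟨![a, c 0, c 1], fun j => ?_⟩
    rw [Fin.sum_univ_two, bF_zero, bF_one] at hc
    rw [Fin.sum_univ_three]
    fin_cases j
    · simp [h0]
    · simp [h1]
    · simp [hc]

lemma algebraic_M : IsAlgebraicSub (M K) := by
  intro P Q _ hPQ hMP
  have hdec : ∀ i : Fin 3, ∃ p ∈ P, ∃ q ∈ Q, p + q = Pi.single i (1 : MonoidAlgebra K F) := by
    intro i
    have h : (Pi.single i (1 : MonoidAlgebra K F) : Fin 3 → MonoidAlgebra K F) ∈ P ⊔ Q := by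
      rw [hPQ.sup_eq_top]
      exact Submodule.mem_top
    rw [Submodule.mem_sup] at h
    obtain ⟨p, hp, q, hq, h⟩ := h
    exact ⟨p, hp, q, hq, h⟩
  choose p hp q hq hpq using hdec
  have hexp : ∀ m : Fin 3 → MonoidAlgebra K F,
      m = ∑ i, MulOpposite.op (m i) • p i + ∑ i, MulOpposite.op (m i) • q i := by
    intro m
    rw [← Finset.sum_add_distrib]
    have e : ∀ i, MulOpposite.op (m i) • p i + MulOpposite.op (m i) • q i =
        MulOpposite.op (m i) • (Pi.single i (1 : MonoidAlgebra K F) : Fin 3 → MonoidAlgebra K F) := by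
      intro i
      rw [← smul_add, hpq]
    rw [Finset.sum_congr rfl fun i _ => e i]
    funext j
    rw [Finset.sum_apply, Finset.sum_eq_single j]
    · simp
    · intro i _ hij
      simp [Ne.symm hij]
    · intro h
      exact absurd (Finset.mem_univ j) h
  have hkill : ∀ m ∈ M K, ∀ j, ∑ i, q i j * m i = 0 := by
    intro m hm j
    have h1 : (∑ i, MulOpposite.op (m i) • q i) ∈ P := by
      have h2 : (∑ i, MulOpposite.op (m i) • q i) = m - ∑ i, MulOpposite.op (m i) • p i := by
        rw [eq_sub_iff_add_eq, add_comm]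
        exact (hexp m).symm
      rw [h2]
      exact P.sub_mem (hMP hm) (P.sum_mem fun i _ => P.smul_mem _ (hp i))
    have h3 : (∑ i, MulOpposite.op (m i) • q i) ∈ Q := Q.sum_mem fun i _ => Q.smul_mem _ (hq i)
    have h4 : (∑ i, MulOpposite.op (m i) • q i) = 0 := by
      have := Submodule.mem_inf.2 ⟨h1, h3⟩
      rw [hPQ.inf_eq_bot] at this
      exact this
    have h5 := congrFun h4 j
    rw [Finset.sum_apply] at h5
    rw [Pi.zero_apply] at h5
    rw [← h5]
    rfl
  have hq0 : ∀ i, q i = 0 := by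
    have hx0 : ∀ c : MonoidAlgebra K F, c * (1 - gg K x) = 0 → c = 0 := by
      intro c hc
      have := left_indep (K := K) bF ![c, 0] (by
        rw [Fin.sum_univ_two, bF_zero, bF_one]
        simpa using hc) 0
      simpa using this
    have h2 : q 2 = 0 := by
      funext j
      have := hkill ![0, 0, 1 - gg K x] ⟨⟨0, by simp, by simp⟩, by simp [aug_gg]⟩ j
      rw [Fin.sum_univ_three] at this
      simp at this
      exact hx0 _ this
    have h01 : ∀ j, q 0 j = 0 ∧ q 1 j = 0 := by
      intro j
      have := hkill ![1 - gg K x, 1 - gg K (y * y), 0] ⟨⟨1, by simp, by simp⟩, by simp⟩ j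
      rw [Fin.sum_univ_three] at this
      simp at this
      have e : 1 - gg K (y * y) = (1 + gg K y) * (1 - gg K y) := by
        rw [gg_mul]
        noncomm_ring
      have h3 := left_indep (K := K) bF ![q 0 j, q 1 j * (1 + gg K y)] (by
        rw [Fin.sum_univ_two, bF_zero, bF_one]
        simp only [Matrix.cons_val_zero, Matrix.cons_val_one]
        rw [mul_assoc, ← e]
        exact this)
      have h4 : q 0 j = 0 := by simpa using h3 0
      have h5 : q 1 j * (1 + gg K y) = 0 := by simpa using h3 1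
      refine ⟨h4, mul_one_sub_cancel y_torsion (g := y * y) ?_⟩
      rw [e, ← mul_assoc, h5, zero_mul]
    intro i
    fin_cases i
    · funext j; exact (h01 j).1
    · funext j; exact (h01 j).2
    · exact h2
  rw [eq_top_iff]
  intro m _
  rw [hexp m]
  refine P.add_mem (P.sum_mem fun i _ => P.smul_mem _ (hp i)) ?_
  have : ∑ i, MulOpposite.op (m i) • q i = 0 := by
    apply Finset.sum_eq_zero
    intro i _
    rw [hq0 i, smul_zero]
  rw [this]
  exact P.zero_mem

/-! ### The intersection -/

/-- the inclusion `K[H] → K[F]` -/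
noncomputable def iota : MonoidAlgebra K H →+* MonoidAlgebra K F := mapDomainRingHom K H.subtype

/-- the restriction to `H` -/
noncomputable def resH (f : MonoidAlgebra K F) : MonoidAlgebra K H :=
  comapDomain H.subtype H.subtype_injective f

lemma coeff_resH (f : MonoidAlgebra K F) (h : H) : (resH K f).coeff h = f.coeff (h : F) := by
  unfold resH
  rw [coeff_comapDomain]
  rfl

lemma resH_add (f g : MonoidAlgebra K F) : resH K (f + g) = resH K f + resH K g := by
  unfold resH
  exact comapDomain_add _ _ _ _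

lemma iota_single (h : H) (c : K) : iota K (single h c) = single (h : F) c := by
  unfold iota
  simp

lemma iota_gg (h : H) : iota K (gg K h) = gg K (h : F) := iota_single K h 1

lemma resH_iota_mul (b : MonoidAlgebra K H) (f : MonoidAlgebra K F) :
    resH K (iota K b * f) = b * resH K f := by
  induction b using MonoidAlgebra.induction_linear with
  | zero =>
    rw [map_zero, zero_mul, zero_mul]
    ext h
    rw [coeff_resH]
    rfl
  | add b c hb hc => rw [map_add, add_mul, resH_add, hb, hc, add_mul]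
  | single h c =>
    ext k
    rw [coeff_resH, iota_single, coeff_single_mul_apply, coeff_single_mul_apply, coeff_resH]
    rfl

lemma resH_one : resH K 1 = 1 := by
  have h : (1 : MonoidAlgebra K F) = iota K 1 := (map_one (iota K)).symm
  ext k
  rw [coeff_resH, h]
  unfold iota
  have e : (mapDomainRingHom K H.subtype (1 : MonoidAlgebra K H)).coeff ((k : F)) =
      (1 : MonoidAlgebra K H).coeff k := by
    rw [show mapDomainRingHom K H.subtype (1 : MonoidAlgebra K H) =
      MonoidAlgebra.mapDomain H.subtype (1 : MonoidAlgebra K H) from rfl]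
    exact Finsupp.mapDomain_apply H.subtype_injective _ k
  exact e

lemma resH_iota (b : MonoidAlgebra K H) : resH K (iota K b) = b := by
  have h := resH_iota_mul K b 1
  rw [mul_one, resH_one, mul_one] at h
  exact h

lemma aug_iota (b : MonoidAlgebra K H) : aug K F (iota K b) = aug K H b := by
  induction b using MonoidAlgebra.induction_linear with
  | zero => simp
  | add b c hb hc => rw [map_add, map_add, map_add, hb, hc]
  | single h c => rw [iota_single, aug_single, aug_single]

lemma mem_inter {v : Fin 3 → MonoidAlgebra K H} : v ∈ interSub K H (M K) ↔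
    (fun i => iota K (v i)) ∈ M K := Iff.rfl

lemma basis_inter : Nonempty (Module.Basis (Fin 4) (MonoidAlgebra K H)ᵐᵒᵖ (interSub K H (M K))) := by
  have hz : iota K (0 : MonoidAlgebra K H) = 0 := map_zero _
  have haug : ∀ h : H, aug K F (iota K (1 - gg K h)) = 0 := by
    intro h
    rw [aug_iota, map_sub, map_one, aug_gg, sub_self]
  have e0 : iota K (1 - gg K (bH 0)) = 1 - gg K x := by
    rw [map_sub, map_one, iota_gg, bH_zero]
  have e2 : iota K (1 - gg K (bH 2)) = 1 - gg K (y * y) := by
    rw [map_sub, map_one, iota_gg, bH_two]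
  refine mkBasis (interSub K H (M K)) ![![1 - gg K (bH 0), 1 - gg K (bH 2), 0],
    ![0, 0, 1 - gg K (bH 0)], ![0, 0, 1 - gg K (bH 1)], ![0, 0, 1 - gg K (bH 2)]] ?_ ?_ ?_
  · intro i
    rw [mem_inter, mem_M]
    fin_cases i
    · refine ⟨⟨1, ?_, ?_⟩, ?_⟩
      · rw [mul_one]; exact e0
      · rw [mul_one]; exact e2
      · change aug K F (iota K 0) = 0
        rw [hz, map_zero]
    · refine ⟨⟨0, ?_, ?_⟩, haug _⟩
      · rw [mul_zero]; exact hz
      · rw [mul_zero]; exact hz
    · refine ⟨⟨0, ?_, ?_⟩, haug _⟩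
      · rw [mul_zero]; exact hz
      · rw [mul_zero]; exact hz
    · refine ⟨⟨0, ?_, ?_⟩, haug _⟩
      · rw [mul_zero]; exact hz
      · rw [mul_zero]; exact hz
  · intro a ha
    have h0 := ha 0
    have h2 := ha 2
    rw [Fin.sum_univ_four] at h0 h2
    simp at h0 h2
    have k0 := right_indep (K := K) bH ![a 0, 0, 0] (by
      rw [Fin.sum_univ_three]
      simpa using h0) 0
    have k1 := right_indep (K := K) bH ![a 1, a 2, a 3] (by
      rw [Fin.sum_univ_three]
      simpa using h2)
    intro i
    fin_cases i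
    · simpa using k0
    · simpa using k1 0
    · simpa using k1 1
    · simpa using k1 2
  · intro v hv
    rw [mem_inter, mem_M] at hv
    obtain ⟨⟨a, h0, h1⟩, h2⟩ := hv
    have k0 : v 0 = (1 - gg K (bH 0)) * resH K a := by
      rw [← resH_iota K (v 0), h0, ← e0, resH_iota_mul]
    have k1 : v 1 = (1 - gg K (bH 2)) * resH K a := by
      rw [← resH_iota K (v 1), h1, ← e2, resH_iota_mul]
    rw [aug_iota] at h2
    obtain ⟨c, hc⟩ := aug_span bH (v 2) h2
    refine ⟨![resH K a, c 0, c 1, c 2], fun j => ?_⟩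
    rw [Fin.sum_univ_three] at hc
    rw [Fin.sum_univ_four]
    fin_cases j
    · simp [k0]
    · simp [k1]
    · simp [hc]

lemma H_ne_bot : H ≠ ⊥ := by
  intro h
  have h1 : x ∈ H := by
    rw [← bH_zero]
    exact (bH 0).2
  rw [h, Subgroup.mem_bot] at h1
  unfold x at h1
  exact FreeGroup.of_ne_one _ h1

/-- **The Hanna Neumann-type inequality over free group algebras fails.**  Moreover, for every field
`K` there are a subgroup `H`, free of rank `3`, of the free group `F` of rank `2` and an algebraic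
right submodule `M` of `K[F]^3` which is free of rank `3` such that `M ∩ K[H]^3` is free of rank `4`;
so `4 / 3 - 1 > (3 / 3 - 1) (3 - 1)`. -/
theorem result : ¬ HannaNeumannInequality ∧ ∀ (K : Type u) [Field K],
    ∃ (H : Subgroup (FreeGroup (Fin 2)))
      (M : Submodule (MonoidAlgebra K (FreeGroup (Fin 2)))ᵐᵒᵖ
        (Fin 3 → MonoidAlgebra K (FreeGroup (Fin 2)))),
      H ≠ ⊥ ∧ IsAlgebraicSub M ∧ Nonempty (FreeGroupBasis (Fin 3) H) ∧
      Nonempty (Module.Basis (Fin 3) (MonoidAlgebra K (FreeGroup (Fin 2)))ᵐᵒᵖ M) ∧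
      Nonempty (Module.Basis (Fin 4) (MonoidAlgebra K H)ᵐᵒᵖ (interSub K H M)) := by
  refine ⟨fun hall => ?_, fun K _ => ⟨H, M K, H_ne_bot, algebraic_M K, ⟨bH⟩, basis_M K,
    basis_inter K⟩⟩
  have h := hall ℚ (Fin 2) 3 (by norm_num) H H_ne_bot (M ℚ) (algebraic_M ℚ) 3 3 4 ⟨bH⟩ (basis_M ℚ)
    (basis_inter ℚ)
  norm_num at h

end Pool.Agent.Results.MP_6883a6_al.NotHannaNeumann
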